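import Pool.Agent.P.MP_098a67_ag.T3.GL
import Pool.Agent.P.MP_098a67_ag.T3.Rk

namespace Pool.Agent.P.MP_098a67_ag.E3

open Module T3
open LinearMap (ker range)

section

variable {X : Type} [AddCommGroup X] [Module ℂ X] [Module.Finite ℂ X] {x y z : X}

/-- The span of two vectors. -/
def pen (x y : X) : Submodule ℂ X := (ℂ ∙ x) ⊔ (ℂ ∙ y)

theorem mem_pen : z ∈ pen x y ↔ ∃ a b : ℂ, a • x + b • y = z := by
  constructor
  · intro h
    obtain ⟨_, h1, _, h2, rfl⟩ := Submodule.mem_sup.1 h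
    obtain ⟨a, rfl⟩ := Submodule.mem_span_singleton.1 h1
    obtain ⟨b, rfl⟩ := Submodule.mem_span_singleton.1 h2
    exact ⟨a, b, rfl⟩
  · rintro ⟨a, b, rfl⟩
    exact Submodule.add_mem_sup (Submodule.mem_span_singleton.2 ⟨a, rfl⟩)
      (Submodule.mem_span_singleton.2 ⟨b, rfl⟩)

theorem left_pen (x y : X) : x ∈ pen x y := mem_pen.2 ⟨1, 0, by simp⟩

theorem right_pen (x y : X) : y ∈ pen x y := mem_pen.2 ⟨0, 1, by simp⟩

theorem dm_sup_span {S : Submodule ℂ X} (hy : y ∉ S) : dm (S ⊔ ℂ ∙ y) = dm S + 1 := by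
  have := dm_lt (le_sup_left : S ≤ S ⊔ ℂ ∙ y)
    (Submodule.mem_sup_right (Submodule.mem_span_singleton_self y)) hy
  have := dm_sup_le S (ℂ ∙ y)
  have := dm_span_le y
  omega

theorem dm_pen (hx : x ≠ 0) (hy : y ∉ ℂ ∙ x) : dm (pen x y) = 2 := by
  rw [pen, dm_sup_span hy, dm_span_single hx]

theorem exists_notMem {S T : Submodule ℂ X} (h : dm S < dm T) : ∃ y ∈ T, y ∉ S := by
  by_contra hc
  push Not at hc
  exact absurd (dm_mono hc) (by omega)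

theorem exists_off (hX : finrank ℂ X = 3) (x y : X) : ∃ z, z ∉ pen x y := by
  have := dm_sup_le (ℂ ∙ x) (ℂ ∙ y)
  have := dm_span_le x
  have := dm_span_le y
  obtain ⟨z, _, hz⟩ := exists_notMem (S := pen x y) (T := ⊤) (by rw [dm_top, pen]; omega)
  exact ⟨z, hz⟩

theorem span3 (hX : finrank ℂ X = 3) (hx : x ≠ 0) (hy : y ∉ ℂ ∙ x) (hz : z ∉ pen x y) (w : X) :
    ∃ p : ℂ × ℂ × ℂ, p.1 • x + p.2.1 • y + p.2.2 • z = w := by
  have : w ∈ pen x y ⊔ ℂ ∙ z := by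
    rw [eq_top_of_dm (S := pen x y ⊔ ℂ ∙ z) (by rw [dm_sup_span hz, dm_pen hx hy, hX])]
    trivial
  obtain ⟨_, h1, _, h2, rfl⟩ := Submodule.mem_sup.1 this
  obtain ⟨a, b, rfl⟩ := mem_pen.1 h1
  obtain ⟨c, rfl⟩ := Submodule.mem_span_singleton.1 h2
  exact ⟨(a, b, c), rfl⟩

theorem mem_of_comb {S : Submodule ℂ X} {b : ℂ} (hb : b ≠ 0) (hx : x ∈ S) (h : x + b • y ∈ S) :
    y ∈ S := (S.smul_mem_iff hb).1 ((S.add_mem_iff_right hx).1 h)

theorem exch (h : z ∈ pen x y) (hz : z ∉ ℂ ∙ x) : y ∈ pen x z := by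
  obtain ⟨a, b, e⟩ := mem_pen.1 h
  refine mem_of_comb (b := b) (fun hb => hz (Submodule.mem_span_singleton.2 ⟨a, ?_⟩))
    (Submodule.smul_mem _ a (left_pen x z)) (by rw [e]; exact right_pen x z)
  rw [← e, hb, zero_smul, add_zero]

theorem indep_symm (hx : x ≠ 0) (hy : y ∉ ℂ ∙ x) : y ≠ 0 ∧ x ∉ ℂ ∙ y := by
  refine ⟨fun e => hy (by rw [e]; exact Submodule.zero_mem _), fun e => ?_⟩
  obtain ⟨c, rfl⟩ := Submodule.mem_span_singleton.1 e
  exact hy (Submodule.mem_span_singleton.2 ⟨c⁻¹, by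
    rw [smul_smul, inv_mul_cancel₀ (left_ne_zero_of_smul hx), one_smul]⟩)

end

section

variable {V W : Type} [AddCommGroup V] [Module ℂ V] [Module.Finite ℂ V] [AddCommGroup W]
  [Module ℂ W] [Module.Finite ℂ W]

theorem fin_bad (A B : V →ₗ[ℂ] W) :
    {s : ℂ | dm (ker A) < dm (ker (A + s • B))}.Finite := by
  obtain ⟨σ, hσ⟩ := exists_ginv A
  refine ((Module.End.finite_hasEigenvalue (σ ∘ₗ B : Module.End ℂ V)).image
    fun μ => -μ⁻¹).subset fun s hs => ?_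
  have hs0 : s ≠ 0 := by
    rintro rfl
    simp at hs
  refine ⟨-s⁻¹, ?_, by simp⟩
  by_contra hc
  refine absurd hs (not_lt.2 (dm_le_of_inj (LinearMap.id - σ ∘ₗ A) (fun v _ => ?_) fun v hv e => ?_))
  · show A (v - σ (A v)) = 0
    rw [map_sub, hσ, sub_self]
  · by_contra h0
    refine hc (Module.End.hasEigenvalue_of_hasEigenvector (x := v)
      ⟨Module.End.mem_eigenspace_iff.2 ?_, h0⟩)
    have e1 : v - σ (A v) = 0 := e
    have e2 := congrArg σ (show A v + s • B v = 0 from hv)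
    rw [map_add, map_smul, map_zero] at e2
    refine smul_right_injective _ hs0 ?_
    show s • σ (B v) = s • -s⁻¹ • v
    rw [smul_smul, mul_neg, mul_inv_cancel₀ hs0]
    linear_combination (norm := module) e1 + e2

theorem fin_inj (A B : V →ₗ[ℂ] W) (S : Submodule ℂ V) (h : ∀ v ∈ S, A v = 0 → v = 0) :
    ∃ t : ℂ, t ≠ 0 ∧ ∀ v ∈ S, A v + t • B v = 0 → v = 0 := by
  obtain ⟨t, ht⟩ := ((fin_bad (A ∘ₗ S.subtype) (B ∘ₗ S.subtype)).insert 0).exists_notMem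
  simp only [Set.mem_insert_iff, Set.mem_ofPred_eq, not_or, not_lt] at ht
  rw [dm_zero (S := ker (A ∘ₗ S.subtype)) fun v hv => Subtype.ext (h v v.2 hv), Nat.le_zero,
    dm_eq_zero] at ht
  refine ⟨t, ht.1, fun v hv e => ?_⟩
  have : (⟨v, hv⟩ : S) ∈ ker (A ∘ₗ S.subtype + t • (B ∘ₗ S.subtype)) := e
  rw [ht.2] at this
  exact congrArg Subtype.val this

/-- A pencil without Jordan chains is reflexive. -/
theorem pencil_refl (P Q : V →ₗ[ℂ] W) (J : Submodule ℂ V) (hQ : ∀ v ∈ J, Q v = 0 → v = 0)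
    (nj : ∀ t : ℂ, ∀ v ∈ J, ∀ w ∈ J, P v + t • Q v = 0 → P w + t • Q w = Q v → v = 0) (p : W)
    (hp : ∀ t : ℂ, ∃ s ∈ J, P s + t • Q s = p) : p = 0 := by
  have key : ∀ p : W, (∀ t : ℂ, ∃ s ∈ J, P s + t • Q s = p) → ∃ v ∈ J, Q v = p := fun p hp => by
    by_contra hc
    obtain ⟨t, t0, ht⟩ := fin_inj (Q.coprod (LinearMap.toSpanSingleton ℂ W p))
      (P ∘ₗ LinearMap.fst ℂ V ℂ) (J.prod ⊤) fun ω hω e => by
        replace e : Q ω.1 + ω.2 • p = 0 := e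
        have h2 : ω.2 = 0 := by
          by_contra h2
          refine hc ⟨-ω.2⁻¹ • ω.1, J.smul_mem _ hω.1, smul_right_injective _ h2 ?_⟩
          simp only [map_smul, smul_smul, mul_neg, mul_inv_cancel₀ h2]
          linear_combination (norm := module) -e
        rw [h2, zero_smul, add_zero] at e
        exact Prod.ext (hQ _ hω.1 e) h2
    obtain ⟨s, hs, e⟩ := hp t⁻¹
    have := ht (s, -t) ⟨hs, trivial⟩ (by
      show Q s + -t • p + t • P s = 0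
      rw [← e, smul_add, smul_smul, neg_mul, mul_inv_cancel₀ t0]
      module)
    exact t0 (neg_eq_zero.1 (congrArg Prod.snd this))
  let Z : Submodule ℂ V :=
    { carrier := {v | v ∈ J ∧ ∀ t : ℂ, ∃ s ∈ J, P s + t • Q s = Q v}
      add_mem' := fun {a b} ha hb => ⟨J.add_mem ha.1 hb.1, fun t => by
        obtain ⟨s, hs, e⟩ := ha.2 t
        obtain ⟨s', hs', e'⟩ := hb.2 t
        refine ⟨s + s', J.add_mem hs hs', ?_⟩
        simp only [map_add]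
        linear_combination (norm := module) e + e'⟩
      zero_mem' := ⟨J.zero_mem, fun t => ⟨0, J.zero_mem, by simp⟩⟩
      smul_mem' := fun c a ha => ⟨J.smul_mem c ha.1, fun t => by
        obtain ⟨s, hs, e⟩ := ha.2 t
        refine ⟨c • s, J.smul_mem c hs, ?_⟩
        simp only [map_smul]
        linear_combination (norm := module) c • e⟩ }
  have hZ : ∀ v : Z, ∃ u : Z, Q u = P v := fun v => by
    have h1 : ∀ t : ℂ, ∃ s ∈ J, P s + t • Q s = P v := fun t => by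
      obtain ⟨s, hs, e⟩ := v.2.2 t
      refine ⟨v - t • s, J.sub_mem v.2.1 (J.smul_mem _ hs), ?_⟩
      simp only [map_sub, map_smul]
      linear_combination (norm := module) (-t) • e
    obtain ⟨u, hu, e⟩ := key _ h1
    exact ⟨⟨u, hu, e ▸ h1⟩, e⟩
  obtain ⟨σ, hσ⟩ := exists_ginv (Q ∘ₗ Z.subtype)
  obtain ⟨v, hv, e⟩ := key p hp
  by_contra h0
  have : Nontrivial Z := ⟨⟨⟨v, hv, e ▸ hp⟩, 0, fun h => h0 (by
    rw [← e, show v = 0 from congrArg Subtype.val h, map_zero])⟩⟩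
  obtain ⟨μ, hμ⟩ := Module.End.exists_eigenvalue (σ ∘ₗ P ∘ₗ Z.subtype : Module.End ℂ Z)
  obtain ⟨u, hu⟩ := hμ.exists_hasEigenvector
  obtain ⟨u', e1⟩ := hZ u
  have e2 : σ (P u) = μ • u := hu.apply_eq_smul
  have e3 : Q (σ (Q u')) = Q u' := hσ u'
  rw [e1, e2] at e3
  obtain ⟨s, hs, e4⟩ := u.2.2 (-μ)
  refine hu.2 (Subtype.ext (nj (-μ) u u.2.1 s hs ?_ e4))
  rw [← e3, Submodule.coe_smul, map_smul]
  module

theorem one_point (P Q : V →ₗ[ℂ] W) (S : Submodule ℂ V)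
    (h : ∀ v ∈ S, Q v = 0 → P v = 0 → v = 0) :
    ∃ t0 : ℂ, ∀ t ≠ t0, 2 * dm (S ⊓ ker (P + t • Q)) ≤ dm S := by
  by_contra hc
  push Not at hc
  obtain ⟨t, -, h1⟩ := hc 0
  obtain ⟨t', ht, h2⟩ := hc t
  have a1 := dm_sup_eq (S := S ⊓ ker (P + t • Q)) (T := S ⊓ ker (P + t' • Q)) fun v h3 h4 => by
    have e1 : P v + t • Q v = 0 := h3.2
    have e2 : P v + t' • Q v = 0 := h4.2
    have e3 : Q v = 0 := (smul_eq_zero_iff_right (sub_ne_zero.2 ht)).1 (by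
      linear_combination (norm := module) e2 - e1)
    exact h v h3.1 e3 (by rwa [e3, smul_zero, add_zero] at e1)
  have a2 := dm_mono (sup_le inf_le_left inf_le_left :
    S ⊓ ker (P + t • Q) ⊔ S ⊓ ker (P + t' • Q) ≤ S)
  omega

end

section

variable {V W κ : Type} [AddCommGroup V] [Module ℂ V] [Co V] [AddCommGroup W] [Module ℂ W] [Co W]
  [Fintype κ] {E : Subfield ℂ} {Φ : κ → V} {S : Submodule ℂ V} {s : ℕ}

/-- Two independent rational coefficient vectors. -/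
theorem g2s (h : GenIn E Φ (cols κ S) s) {f g : V →ₗ[ℂ] W} (rf : RM E f) (rg : RM E g)
    {D : Submodule ℂ W} (rD : RS E D) {y z : κ → ℂ} (ry : RV E y) (rz : RV E z) (hy : y ∉ ℂ ∙ z)
    (hz : z ≠ 0) (hm : f (lin Φ y) + g (lin Φ z) ∈ D) :
    dm (S.map f ⊔ S.map g ⊔ D) ≤ dm D + s :=
  h.ga ((rf.comp (RM.ev ry)).add (rg.comp (RM.ev rz))) rD RV.zero (by rw [sub_zero]; exact hm) (by
    intro w hw
    obtain ⟨_, ⟨w1, hw1, rfl⟩, _, ⟨w2, hw2, rfl⟩, rfl⟩ := Submodule.mem_sup.1 hw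
    have hz' : z ∉ ℂ ∙ y := fun e => by
      obtain ⟨c, rfl⟩ := Submodule.mem_span_singleton.1 e
      exact hy (Submodule.mem_span_singleton.2 ⟨c⁻¹, by
        rw [smul_smul, inv_mul_cancel₀ (left_ne_zero_of_smul hz), one_smul]⟩)
    obtain ⟨Ψ, h1, h2, h3⟩ := exists_cols hy hw1
    obtain ⟨Ψ', k1, k2, k3⟩ := exists_cols hz' hw2
    refine ⟨Ψ + Ψ', Submodule.add_mem _ h1 k1, ?_⟩
    show f (ev y (Ψ + Ψ')) + g (ev z (Ψ + Ψ')) = f w1 + g w2
    rw [map_add, map_add (ev z), ev_apply, ev_apply, ev_apply, ev_apply, h2, k2,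
      h3 z (Submodule.mem_span_singleton_self z), k3 y (Submodule.mem_span_singleton_self y),
      add_zero, zero_add])

theorem nj_line (h : GenIn E Φ (cols κ S) 0) (rS : RS E S) {P Q : V →ₗ[ℂ] W} (rP : RM E P)
    (rQ : RM E Q) (hc : ∀ v ∈ S, Q v = 0 → P v = 0 → v = 0)
    (hk : Fintype.card κ + dm S / 2 = dm S) (hQ : ∀ y, Q (lin Φ y) = 0 → y = 0) {t0 : ℂ}
    (r0 : t0 ∈ E) (h0 : ∀ t ≠ t0, 2 * dm (S ⊓ ker (P + t • Q)) ≤ dm S) (t : ℂ) (y y' : κ → ℂ)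
    (e1 : (P + t • Q) (lin Φ y) = 0) (e2 : (P + t • Q) (lin Φ y') = Q (lin Φ y)) : y = 0 := by
  by_cases ht : t = t0
  · subst ht
    have rB := rP.add (rQ.smul r0)
    refine g1e h RM.id ((rS.inf (RS.ker rB)).inf (RS.comap rQ (RS.map rB rS)))
      ⟨⟨lin_mem h.mem y, e1⟩, _, lin_mem h.mem y', e2⟩ ?_
    have a1 := dm_le_of_inj Q (S := S ⊓ ker (P + t • Q) ⊓ (S.map (P + t • Q)).comap Q)
      (T := S.map (P + t • Q)) (fun v hv => hv.2) fun v hv e => hc v hv.1.1 e (by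
        have : P v + t • Q v = 0 := hv.1.2
        rwa [e, smul_zero, add_zero] at this)
    have a2 := dm_mono (inf_le_left : S ⊓ ker (P + t • Q) ⊓ (S.map (P + t • Q)).comap Q ≤ _)
    have a3 := dm_map_ker (P + t • Q) S
    have a4 := dm_mono (le_sup_left : S ≤ _ ⊔ S ⊓ ker (P + t • Q) ⊓ (S.map (P + t • Q)).comap Q)
    rw [Submodule.map_id]
    omega
  by_contra hy
  obtain ⟨E1, x1, r1⟩ := ext1 E t
  have rB := (rP.mono x1.le).add ((rQ.mono x1.le).smul r1)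
  have b0 := h0 t ht
  generalize P + t • Q = B at *
  let C : Submodule ℂ (V × V) := (S ⊓ ker B).prod S ⊓ ker ((-Q).coprod B)
  have rC : RS E1 C := (((rS.mono x1.le).inf (RS.ker rB)).prod (rS.mono x1.le)).inf
    (RS.ker ((rQ.mono x1.le).neg.coprod rB))
  have b1 := dm_le_add (LinearMap.fst ℂ V V) (LinearMap.snd ℂ V V) (S := C) (T := S ⊓ ker B)
    (K := S ⊓ ker B) (fun ω hω => hω.1.1) (fun ω hω e => ⟨hω.1.2, by
      have : -Q ω.1 + B ω.2 = 0 := hω.2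
      rwa [show ω.1 = 0 from e, map_zero, neg_zero, zero_add] at this⟩)
    fun ω _ e e' => Prod.ext e e'
  let D : Submodule ℂ ((κ → ℂ) × (κ → ℂ)) := C.comap ((lin Φ).prodMap (lin Φ))
  have m1 : (y, y') ∈ D := ⟨⟨⟨lin_mem h.mem y, e1⟩, lin_mem h.mem y'⟩, by
    show -Q (lin Φ y) + B (lin Φ y') = 0
    rw [e2, neg_add_cancel]⟩
  have m2 : (0, y) ∈ D := ⟨⟨⟨lin_mem h.mem 0, by
    show B (lin Φ 0) = 0
    rw [map_zero, map_zero]⟩, lin_mem h.mem y⟩, by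
    show -Q (lin Φ 0) + B (lin Φ y) = 0
    rw [e1, map_zero, map_zero, neg_zero, add_zero]⟩
  have b2 := dm_lt ((Submodule.span_singleton_le_iff_mem _ _).2 m2) m1 fun e => by
    obtain ⟨c, e⟩ := Submodule.mem_span_singleton.1 e
    exact hy (by simpa using (congrArg Prod.fst e).symm)
  rw [dm_span_single fun e => hy (congrArg Prod.snd e)] at b2
  obtain ⟨⟨u, u'⟩, o1, o2, E2, s, x2, o3, o4⟩ := pv1 (RS.top (E := E1)) (D := D)
    (Z := ker (LinearMap.fst ℂ _ _)) le_top fun e => hy (e m1)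
  obtain ⟨o5, o6⟩ := rv_prod.1 o4
  have o7 : u ≠ 0 := o2
  have b3 := g2s ((h.ext x1).ext x2) (RM.inr (V := V)) RM.inl (rC.mono x2.le) o6 o5 (fun e => by
    obtain ⟨c, e⟩ := Submodule.mem_span_singleton.1 e
    dsimp only at e
    have e3 : -Q (lin Φ u) + B (lin Φ u') = 0 := o1.2
    have e4 : B (lin Φ u) = 0 := o1.1.1.2
    rw [← e, map_smul, map_smul, e4, smul_zero, add_zero, neg_eq_zero] at e3
    exact o7 (hQ u e3)) o7 (by
    have : (lin Φ u, lin Φ u') ∈ C := o1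
    simpa using this)
  have b4 := dm_mono (le_sup_left : S.prod S ≤ _ ⊔ C)
  rw [sup_comm (S.map _), ← LinearMap.prod_eq_sup_map] at b3
  rw [dm_prod] at b4
  rw [dm_top, Module.finrank_prod, card_fun] at o3
  omega

/-- A generic subspace of half the dimension has no Jordan chains on two lines. -/
theorem gen_half (S : Submodule ℂ V) (P P' Q : V →ₗ[ℂ] W)
    (hc : ∀ v ∈ S, Q v = 0 → P v = 0 → v = 0) (hc' : ∀ v ∈ S, Q v = 0 → P' v = 0 → v = 0)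
    (hQ : 2 * dm (S ⊓ ker Q) ≤ dm S) :
    ∃ J, J ≤ S ∧ dm S ≤ 2 * dm J ∧ (∀ p, (∀ t : ℂ, ∃ s ∈ J, P s + t • Q s = p) → p = 0) ∧
      ∀ p, (∀ t : ℂ, ∃ s ∈ J, P' s + t • Q s = p) → p = 0 := by
  obtain ⟨t0, h0⟩ := one_point P Q S hc
  obtain ⟨t0', h0'⟩ := one_point P' Q S hc'
  obtain ⟨E, Φ, ⟨rS, rP, rP', rQ, r0, r0'⟩, h⟩ := exists_genIn (cols (Fin (dm S - dm S / 2)) S)
    ((ev_rs S).and ((ev_rm P).and ((ev_rm P').and ((ev_rm Q).and ((ev_rv t0).and (ev_rv t0'))))))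
  have hk : Fintype.card (Fin (dm S - dm S / 2)) + dm S / 2 = dm S := by
    rw [Fintype.card_fin]
    omega
  have inj : ∀ y, Q (lin Φ y) = 0 → y = 0 := fun y e => by
    refine g1e h RM.id (rS.inf (RS.ker rQ)) ⟨lin_mem h.mem y, e⟩ ?_
    have := dm_mono (le_sup_left : S ≤ _ ⊔ S ⊓ ker Q)
    rw [Submodule.map_id]
    omega
  have inj' : ∀ v ∈ range (lin Φ), Q v = 0 → v = 0 := by
    rintro _ ⟨y, rfl⟩ e
    rw [inj y e, map_zero]
  refine ⟨range (lin Φ), ?_, ?_, pencil_refl P Q _ inj' ?_, pencil_refl P' Q _ inj' ?_⟩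
  · rintro _ ⟨y, rfl⟩
    exact lin_mem h.mem y
  · rw [dm_range_eq fun y e => inj y (by rw [e, map_zero]), card_fun]
    omega
  · rintro t _ ⟨y, rfl⟩ _ ⟨y', rfl⟩ e1 e2
    rw [nj_line h rS rP rQ hc hk inj (rv_C.1 r0) h0 t y y' e1 e2, map_zero]
  · rintro t _ ⟨y, rfl⟩ _ ⟨y', rfl⟩ e1 e2
    rw [nj_line h rS rP' rQ hc' hk inj (rv_C.1 r0') h0' t y y' e1 e2, map_zero]

end

end Pool.Agent.P.MP_098a67_ag.E3
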