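import Pool.Agent.P.MP_098a67_ag.E3.Gen

namespace Pool.Agent.P.MP_098a67_ag.E3

open Module T3
open LinearMap (ker range)

section Upper

variable {m : Type} [Fintype m] [DecidableEq m]

theorem lin_ext {x y z : Fin 3 → ℂ} (hx : x ≠ 0) (hy : y ∉ ℂ ∙ x) (hz : z ∉ pen x y)
    {s : Fin 3 → m → ℂ} (h1 : ev x s = 0) (h2 : ev y s = 0) (h3 : ev z s = 0) : s = 0 :=
  funext fun i => by
    rw [ev_apply] at h1 h2 h3
    obtain ⟨p, hp⟩ := span3 (by simp) hx hy hz (Pi.single i 1)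
    have : lin s (Pi.single i 1) = s i := by simp [lin]
    rw [← this, ← hp]
    simp [h1, h2, h3]

theorem dm_cols (S : Submodule ℂ (m → ℂ)) : dm (cols (Fin 3) S) ≤ 3 * dm S := by
  have := dm_le_of_inj ((LinearMap.proj 0).prod ((LinearMap.proj 1).prod (LinearMap.proj 2)))
    (S := cols (Fin 3) S) (T := S.prod (S.prod S))
    (fun v hv => ⟨mem_cols.1 hv 0, mem_cols.1 hv 1, mem_cols.1 hv 2⟩) fun v _ e => funext fun i => by
      fin_cases i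
      · exact congrArg Prod.fst e
      · exact congrArg (fun p => p.2.1) e
      · exact congrArg (fun p => p.2.2) e
  rw [dm_prod, dm_prod] at this
  omega

theorem pi_ev {π : (m → ℂ) →ₗ[ℂ] (m → ℂ)} {s : Fin 3 → m → ℂ} (h : π.compLeft (Fin 3) s = 0)
    (x : Fin 3 → ℂ) : π (ev x s) = 0 := by
  have : ∀ i, π (s i) = 0 := fun i => congrFun h i
  simp [ev_apply, lin_apply, this]

theorem ev_comb (a x : Fin 3 → ℂ) (t : ℂ) (s : Fin 3 → m → ℂ) :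
    ev (a + t • x) s = ev a s + t • ev x s := by
  simp only [ev_apply, map_add, map_smul]

theorem ev_left (π : (m → ℂ) →ₗ[ℂ] (m → ℂ)) (s : Fin 3 → m → ℂ) (u : Fin 3 → ℂ) :
    ev u (π.compLeft (Fin 3) s) = π (ev u s) := by
  simp [ev_apply, lin_apply]

theorem refl_line {J Qa Qb : Submodule ℂ (Fin 3 → m → ℂ)} {π : (m → ℂ) →ₗ[ℂ] (m → ℂ)}
    {x0 a : Fin 3 → ℂ} (pJ : ∀ s ∈ J, ∀ x, π (ev x s) = 0)
    (ka : ∀ s ∈ Qa, ev x0 s = 0 ∧ ev a s = 0) (kb : ∀ s ∈ Qb, ev x0 s = 0)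
    (ib : ∀ s ∈ Qb, π (ev a s) = 0 → s = 0)
    (r : ∀ p, (∀ t : ℂ, ∃ s ∈ J, ev a s + t • ev x0 s = p) → p = 0) {l : Fin 3 → m → ℂ}
    (hl : ∀ x, ∃ s ∈ J ⊔ Qa ⊔ Qb, ev x s = ev x l) (h0 : ev x0 l = 0) (h1 : π (ev a l) = 0) :
    ev a l = 0 := r _ fun t => by
  obtain ⟨_, hs, e⟩ := hl (a + t • x0)
  obtain ⟨_, h2, b, hb, rfl⟩ := Submodule.mem_sup.1 hs
  obtain ⟨j, hj, c, hc, rfl⟩ := Submodule.mem_sup.1 h2
  simp only [map_add, ev_comb, (ka c hc).1, (ka c hc).2, kb b hb, h0, smul_zero, add_zero] at e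
  have e2 := congrArg π e
  simp only [map_add, map_smul, pJ j hj, h1, smul_zero, zero_add] at e2
  rw [ib b hb e2, map_zero, add_zero] at e
  exact ⟨j, hj, e⟩

theorem refl_core {J Q1 Q2 : Submodule ℂ (Fin 3 → m → ℂ)} {π : (m → ℂ) →ₗ[ℂ] (m → ℂ)}
    {x0 x1 x2 : Fin 3 → ℂ} (hx0 : x0 ≠ 0) (hx1 : x1 ∉ ℂ ∙ x0) (o2 : x2 ∉ pen x0 x1)
    (pJ : ∀ s ∈ J, ∀ x, π (ev x s) = 0)
    (k1 : ∀ s ∈ Q1, ev x0 s = 0 ∧ ev x1 s = 0) (k2 : ∀ s ∈ Q2, ev x0 s = 0 ∧ ev x2 s = 0)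
    (i1 : ∀ s ∈ Q1, π (ev x2 s) = 0 → s = 0) (i2 : ∀ s ∈ Q2, π (ev x1 s) = 0 → s = 0)
    (s1 : ∀ v, ∃ s ∈ Q1, π (ev x2 s) = π v) (s2 : ∀ v, ∃ s ∈ Q2, π (ev x1 s) = π v)
    (r1 : ∀ p, (∀ t : ℂ, ∃ s ∈ J, ev x1 s + t • ev x0 s = p) → p = 0)
    (r2 : ∀ p, (∀ t : ℂ, ∃ s ∈ J, ev x2 s + t • ev x0 s = p) → p = 0) :
    dm (J ⊔ Q1 ⊔ Q2) = dm J + dm Q1 + dm Q2 ∧
      ∀ l, (∀ x, ∃ s ∈ J ⊔ Q1 ⊔ Q2, ev x s = ev x l) → l ∈ J ⊔ Q1 ⊔ Q2 := by
  refine ⟨?_, fun l hl => ?_⟩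
  · rw [dm_sup_eq (S := J ⊔ Q1) (T := Q2) fun v hv h2 => i2 v h2 (by
      obtain ⟨j, hj, c, hc, rfl⟩ := Submodule.mem_sup.1 hv
      rw [map_add, (k1 c hc).2, add_zero, pJ j hj]),
      dm_sup_eq (S := J) (T := Q1) fun v hv h2 => i1 v h2 (pJ v hv _)]
  · obtain ⟨_, hs, e⟩ := hl x0
    obtain ⟨_, h2, b, hb, rfl⟩ := Submodule.mem_sup.1 hs
    obtain ⟨j, hj, c, hc, rfl⟩ := Submodule.mem_sup.1 h2
    rw [map_add, map_add, (k1 c hc).1, (k2 b hb).1, add_zero, add_zero] at e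
    obtain ⟨q1, hq1, e1⟩ := s1 (ev x2 l)
    obtain ⟨q2, hq2, e2⟩ := s2 (ev x1 l)
    have hm : j + q1 + q2 ∈ J ⊔ Q1 ⊔ Q2 :=
      Submodule.add_mem_sup (Submodule.add_mem_sup hj hq1) hq2
    have hl' : ∀ x, ∃ s ∈ J ⊔ Q1 ⊔ Q2, ev x s = ev x (l - (j + q1 + q2)) := fun x => by
      obtain ⟨s, hs, e⟩ := hl x
      exact ⟨s - (j + q1 + q2), Submodule.sub_mem _ hs hm, by rw [map_sub, map_sub, e]⟩
    have z0 : ev x0 (l - (j + q1 + q2)) = 0 := by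
      rw [map_sub, map_add, map_add, (k1 q1 hq1).1, (k2 q2 hq2).1, e, add_zero, add_zero, sub_self]
    have z1 := refl_line pJ k1 (fun s hs => (k2 s hs).1) i2 r1 hl' z0 (by
      rw [map_sub, map_add, map_add, (k1 q1 hq1).2, map_sub, map_add, map_add, pJ j hj, e2,
        map_zero, zero_add, zero_add, sub_self])
    have z2 := refl_line pJ k2 (fun s hs => (k1 s hs).1) i1 r2
      (by rwa [sup_right_comm]) z0 (by
      rw [map_sub, map_add, map_add, (k2 q2 hq2).2, map_sub, map_add, map_add, pJ j hj, e1,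
        map_zero, zero_add, add_zero, sub_self])
    rwa [sub_eq_zero.1 (lin_ext hx0 hx1 o2 z0 z1 z2)]

theorem refl_inj {S : Submodule ℂ (Fin 3 → m → ℂ)} {π : (m → ℂ) →ₗ[ℂ] (m → ℂ)}
    {W1 : Submodule ℂ (m → ℂ)} (p3 : ∀ v, π v ∈ W1) {x0 a b : Fin 3 → ℂ} (hx0 : x0 ≠ 0)
    (ha : a ∉ ℂ ∙ x0) (hb : b ∉ pen x0 a) (mn : dm W1 ≤ dm (S ⊓ ker (ev x0) ⊓ ker (ev a)))
    (c : ∀ s ∈ S ⊓ ker (π.compLeft (Fin 3)), ev x0 s = 0 → ev a s = 0 → s = 0) :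
    ∃ Q, Q ≤ S ∧ dm W1 ≤ dm Q ∧ (∀ s ∈ Q, ev x0 s = 0 ∧ ev a s = 0) ∧
      (∀ s ∈ Q, π (ev b s) = 0 → s = 0) ∧ ∀ v, ∃ s ∈ Q, π (ev b s) = π v := by
  have k : ∀ s ∈ S ⊓ ker (ev x0) ⊓ ker (ev a), s ∈ S ∧ ev x0 s = 0 ∧ ev a s = 0 :=
    fun s hs => ⟨hs.1.1, hs.1.2, hs.2⟩
  generalize S ⊓ ker (ev x0) ⊓ ker (ev a) = Q at k mn
  have h1 : ∀ s ∈ Q, π (ev b s) = 0 → s = 0 := fun s hs e =>
    c s ⟨(k s hs).1, lin_ext hx0 ha hb (s := π.compLeft (Fin 3) s)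
      (by rw [ev_left, (k s hs).2.1, map_zero])
      (by rw [ev_left, (k s hs).2.2, map_zero]) (by rw [ev_left, e])⟩ (k s hs).2.1 (k s hs).2.2
  refine ⟨Q, fun s hs => (k s hs).1, mn, fun s hs => (k s hs).2, h1, fun v => ?_⟩
  have h2 : Q.map (π ∘ₗ ev b) = W1 := eq_of_dm_le (by
    rintro _ ⟨s, _, rfl⟩
    exact p3 _) (by rw [dm_map_eq (f := π ∘ₗ ev b) h1]; exact mn)
  have h3 := p3 v
  rw [← h2] at h3
  obtain ⟨s, hs, e⟩ := h3
  exact ⟨s, hs, e⟩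

theorem refl_aux (S : Submodule ℂ (Fin 3 → m → ℂ)) (π : (m → ℂ) →ₗ[ℂ] (m → ℂ))
    (W1 : Submodule ℂ (m → ℂ)) (p3 : ∀ v, π v ∈ W1)
    (mn : ∀ x y : Fin 3 → ℂ, x ≠ 0 → y ∉ ℂ ∙ x → dm W1 ≤ dm (S ⊓ ker (ev x) ⊓ ker (ev y)))
    {x0 x1 : Fin 3 → ℂ} (hx0 : x0 ≠ 0) (hx1 : x1 ∉ ℂ ∙ x0)
    (c1 : ∀ s ∈ S ⊓ ker (π.compLeft (Fin 3)), ev x0 s = 0 → ev x1 s = 0 → s = 0)
    (hQ : 2 * dm (S ⊓ ker (π.compLeft (Fin 3)) ⊓ ker (ev x0)) ≤
      dm (S ⊓ ker (π.compLeft (Fin 3)))) :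
    ∃ J, J ≤ S ∧ dm S ≤ 2 * dm J ∧ ∀ l, (∀ x, ∃ s ∈ J, ev x s = ev x l) → l ∈ J := by
  have hX : finrank ℂ (Fin 3 → ℂ) = 3 := by simp
  have d1 := dm_le_add (π.compLeft (Fin 3)) LinearMap.id (S := S) (T := cols (Fin 3) W1)
    (K := S ⊓ ker (π.compLeft (Fin 3))) (fun v _ => mem_cols.2 fun i => p3 _)
    (fun v hv e => ⟨hv, e⟩) fun _ _ _ e => e
  have d2 := dm_cols W1
  obtain ⟨z, hz⟩ := exists_off hX x0 x1
  obtain ⟨τ, τ0, hτ⟩ := fin_inj (ev x1) (ev z) (S ⊓ ker (π.compLeft (Fin 3)) ⊓ ker (ev x0))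
    fun s hs => c1 s hs.1 hs.2
  obtain ⟨x2, hx2⟩ : ∃ x2, x2 = x1 + τ • z := ⟨_, rfl⟩
  have o2 : x2 ∉ pen x0 x1 := fun e => hz (mem_of_comb τ0 (right_pen _ _) (hx2 ▸ e))
  have n2 : x2 ∉ ℂ ∙ x0 := fun e => o2 (Submodule.mem_sup_left e)
  have o1 : x1 ∉ pen x0 x2 := fun e => o2 (exch e hx1)
  have c2 : ∀ s ∈ S ⊓ ker (π.compLeft (Fin 3)), ev x0 s = 0 → ev x2 s = 0 → s = 0 :=
    fun s hs h1 h2 => hτ s ⟨hs, h1⟩ (by rwa [hx2, ev_comb] at h2)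
  obtain ⟨J, hJ, dJ, r1, r2⟩ := gen_half (S ⊓ ker (π.compLeft (Fin 3))) (ev x1) (ev x2) (ev x0)
    c1 c2 hQ
  obtain ⟨Q1, l1, m1, k1, i1, s1⟩ := refl_inj p3 hx0 hx1 o2 (mn x0 x1 hx0 hx1) c1
  obtain ⟨Q2, l2, m2, k2, i2, s2⟩ := refl_inj p3 hx0 n2 o1 (mn x0 x2 hx0 n2) c2
  obtain ⟨h1, h2⟩ := refl_core hx0 hx1 o2 (fun s hs => pi_ev (hJ hs).2) k1 k2 i1 i2 s1 s2 r1 r2
  have ar : ∀ a b c w j q1 q2 t : ℕ, a ≤ b + c → b ≤ 3 * w → c ≤ 2 * j → w ≤ q1 → w ≤ q2 →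
      t = j + q1 + q2 → a ≤ 2 * t := by omega
  exact ⟨J ⊔ Q1 ⊔ Q2, sup_le (sup_le (hJ.trans inf_le_left) l1) l2,
    ar _ _ _ _ _ _ _ _ d1 d2 dJ m1 m2 h1, h2⟩

/-- Every space of maps from a space of dimension three has a reflexive subspace of half the
dimension. -/
theorem refl_half (S : Submodule ℂ (Fin 3 → m → ℂ)) :
    ∃ J, J ≤ S ∧ dm S ≤ 2 * dm J ∧ ∀ l, (∀ x, ∃ s ∈ J, ev x s = ev x l) → l ∈ J := by
  classical
  have hX : finrank ℂ (Fin 3 → ℂ) = 3 := by simp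
  have ex : ∃ ω, ∃ x y : Fin 3 → ℂ, x ≠ 0 ∧ y ∉ ℂ ∙ x ∧ dm (S ⊓ ker (ev x) ⊓ ker (ev y)) = ω := by
    obtain ⟨x, hx⟩ := exists_off hX 0 0
    obtain ⟨y, hy⟩ := exists_off hX x x
    exact ⟨_, x, y, fun e => hx (by rw [e]; exact Submodule.zero_mem _),
      fun e => hy (Submodule.mem_sup_left e), rfl⟩
  obtain ⟨x, y, hx, hy, hω⟩ := Nat.find_spec ex
  obtain ⟨z, hz⟩ := exists_off hX x y
  obtain ⟨π, p1, -, p3⟩ := exists_proj (D := (S ⊓ ker (ev x) ⊓ ker (ev y)).map (ev z)) (Z := ⊥)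
    fun _ _ h => h
  have mn : ∀ x' y' : Fin 3 → ℂ, x' ≠ 0 → y' ∉ ℂ ∙ x' →
      dm ((S ⊓ ker (ev x) ⊓ ker (ev y)).map (ev z)) ≤ dm (S ⊓ ker (ev x') ⊓ ker (ev y')) :=
    fun x' y' h1 h2 => (dm_map_le _ _).trans (hω.trans_le (Nat.find_min' ex ⟨x', y', h1, h2, rfl⟩))
  have c0 : ∀ s ∈ S ⊓ ker (π.compLeft (Fin 3)), ev x s = 0 → ev y s = 0 → s = 0 :=
    fun s hs h1 h2 => lin_ext hx hy hz h1 h2
      ((p1 (ev z s) ⟨s, ⟨⟨hs.1, h1⟩, h2⟩, rfl⟩).symm.trans (pi_ev hs.2 z))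
  have a1 := dm_sup_eq (S := S ⊓ ker (π.compLeft (Fin 3)) ⊓ ker (ev x))
    (T := S ⊓ ker (π.compLeft (Fin 3)) ⊓ ker (ev y)) fun v h1 h2 => c0 v h1.1 h1.2 h2.2
  have a2 := dm_mono (sup_le inf_le_left inf_le_left : S ⊓ ker (π.compLeft (Fin 3)) ⊓ ker (ev x) ⊔
    S ⊓ ker (π.compLeft (Fin 3)) ⊓ ker (ev y) ≤ _)
  by_cases h : 2 * dm (S ⊓ ker (π.compLeft (Fin 3)) ⊓ ker (ev x)) ≤
    dm (S ⊓ ker (π.compLeft (Fin 3)))
  · exact refl_aux S π _ p3 mn hx hy c0 h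
  · exact refl_aux S π _ p3 mn (indep_symm hx hy).1 (indep_symm hx hy).2
      (fun s hs h1 h2 => c0 s hs h2 h1) (by omega)

theorem upper (a b r : ℕ) (hr : (3 * a + b) / 2 ≤ r) (X : Fin a → Fin b → Fin 3 → ℂ) :
    ∃ (u : Fin r → Fin a → ℂ) (v : Fin r → Fin b → ℂ) (w : Fin r → Fin 3 → ℂ),
      ∀ i j k, X i j k = ∑ l, u l i * v l j * w l k := by
  let e : (Fin 3 × Fin a → ℂ) ≃ₗ[ℂ] (Fin 3 → Fin a → ℂ) := LinearEquiv.curry ℂ ℂ _ _
  let C : Fin b → Fin 3 × Fin a → ℂ := fun j p => X p.2 j p.1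
  obtain ⟨J, hJ, dJ, rJ⟩ := refl_half ((perp (range (lin C))).map e.toLinearMap)
  let R : Set (Fin 3 × Fin a → ℂ) := {g | ∃ (x : Fin 3 → ℂ) (y : Fin a → ℂ),
    y ∈ perp (J.map (ev x)) ∧ g = fun p => x p.1 * y p.2}
  have key : ∀ (g : Fin 3 × Fin a → ℂ) (x : Fin 3 → ℂ) (y : Fin a → ℂ),
      g ⬝ᵥ (fun p => x p.1 * y p.2) = y ⬝ᵥ ev x (e g) := fun g x y => by
    simp only [dotProduct, Fintype.sum_prod_type, ev_apply, lin_apply, Finset.sum_apply,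
      Pi.smul_apply, smul_eq_mul, Finset.mul_sum]
    rw [Finset.sum_comm]
    exact Finset.sum_congr rfl fun _ _ => Finset.sum_congr rfl fun _ _ => by
      show g _ * _ = _ * (_ * g _)
      ring
  have h1 : perp (Submodule.span ℂ R) ≤ J.comap e.toLinearMap := fun g hg => rJ _ fun x => by
    have : ev x (e g) ∈ perp (perp (J.map (ev x))) := fun y hy => by
      rw [dotProduct_comm, ← key]
      exact hg _ (Submodule.subset_span ⟨x, y, hy, rfl⟩)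
    rwa [perp_perp] at this
  have h2 : J.comap e.toLinearMap ≤ perp (Submodule.span ℂ R) := fun g hg v hv => by
    refine Submodule.span_induction (p := fun v _ => g ⬝ᵥ v = 0) ?_ (dotProduct_zero _)
      (fun a b _ _ ha hb => by rw [dotProduct_add, ha, hb, add_zero])
      (fun c a _ ha => by rw [dotProduct_smul, ha, smul_zero]) hv
    rintro _ ⟨x, y, hy, rfl⟩
    rw [key]
    exact hy _ ⟨_, hg, rfl⟩
  have h3 : range (lin C) ≤ Submodule.span ℂ R := le_of_perp fun g hg => by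
    obtain ⟨g', h4, h5⟩ := hJ (h1 hg)
    rwa [← e.injective h5]
  have d1 := dm_perp (Submodule.span ℂ R)
  have d2 := dm_perp (range (lin C))
  have d3 := dm_range_le (lin C)
  have d4 : dm J ≤ dm (perp (Submodule.span ℂ R)) := dm_le_of_inj e.symm.toLinearMap
    (fun s hs => h2 (by simpa using hs)) fun s _ h => by simpa using h
  rw [dm_map_eq fun g _ h => by simpa using h] at dJ
  rw [card_fun, Fintype.card_fin] at d3
  rw [Fintype.card_prod, Fintype.card_fin, Fintype.card_fin] at d1 d2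
  obtain ⟨f, f1, f2, -⟩ := Submodule.exists_fun_fin_finrank_span_eq ℂ R
  choose x y _ hf using f1
  have h4 : ∀ j, ∃ c : Fin (finrank ℂ (Submodule.span ℂ R)) → ℂ, ∑ l, c l • f l = C j := fun j =>
    (Submodule.mem_span_range_iff_exists_fun ℂ).1 (by
      rw [f2]
      exact h3 ⟨Pi.single j 1, by simp [lin]⟩)
  choose c hc using h4
  obtain ⟨ε⟩ := Function.Embedding.nonempty_of_card_le (α := Fin (finrank ℂ (Submodule.span ℂ R)))
    (β := Fin r) (by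
      rw [Fintype.card_fin, Fintype.card_fin]
      show dm _ ≤ r
      omega)
  refine ⟨Function.extend ε y 0, Function.extend ε (fun l j => c j l) 0, Function.extend ε x 0,
    fun i j k => ?_⟩
  have := congrFun (hc j) (k, i)
  simp only [Finset.sum_apply, Pi.smul_apply, smul_eq_mul, hf] at this
  refine Eq.trans this.symm (Fintype.sum_of_injective ε ε.injective _ _ (fun l hl => ?_) fun l => ?_)
  · rw [Function.extend_apply' _ _ _ hl]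
    simp
  · simp only [ε.injective.extend_apply]
    ring

end Upper

section Lower

theorem subst_in {V W κ : Type} [AddCommGroup V] [Module ℂ V] [Module.Finite ℂ V]
    [AddCommGroup W] [Module ℂ W] (d : ℕ) : ∀ (g : κ → V →ₗ[ℂ] W) (r : ℕ) (U : Submodule ℂ V),
    RK g r → dm U = d → (∀ u ∈ U, (∀ k, g k u = 0) → u = 0) →
    ∃ (R : V →ₗ[ℂ] V) (r' : ℕ), r' + d ≤ r ∧ (∀ v, R v - v ∈ U) ∧ RK (fun k => g k ∘ₗ R) r' := by
  classical
  induction d with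
  | zero => exact fun g r U h _ _ => ⟨LinearMap.id, r, le_rfl, fun v => by simp, h⟩
  | succ d ih =>
    rintro g r U ⟨s, _, hs, φ, w, c, h⟩ hU hc
    obtain ⟨u, hu, h0⟩ := exists_notMem (S := ⊥) (T := U) (by rw [dm_bot]; omega)
    obtain ⟨l, hl⟩ : ∃ l, φ l u ≠ 0 := by
      by_contra hn
      push Not at hn
      exact h0 (hc u hu fun k => by simp [h, hn])
    let R1 : V →ₗ[ℂ] V := LinearMap.id - ((φ l u)⁻¹ • φ l).smulRight u
    have e1 : ∀ v, R1 v = v - ((φ l u)⁻¹ * φ l v) • u := fun _ => rfl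
    have e2 : ∀ v, φ l (R1 v) = 0 := fun v => by
      rw [e1, map_sub, map_smul, smul_eq_mul]
      field_simp
      ring
    have hpos : 0 < Fintype.card s := Fintype.card_pos_iff.2 ⟨l⟩
    have h1 : RK (fun k => g k ∘ₗ R1) (r - 1) := by
      refine ⟨{x // x ≠ l}, inferInstance, by simp; omega, fun x => φ x ∘ₗ R1, fun x => w x,
        fun x => c x, fun k v => ?_⟩
      rw [LinearMap.comp_apply, h, Fintype.sum_eq_add_sum_subtype_ne _ l, e2]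
      simp
    obtain ⟨C, c1, c2, c3⟩ := exists_compl_in ((Submodule.span_singleton_le_iff_mem u U).2 hu)
    have e3 := dm_sup_eq c2
    rw [c3, dm_span_single h0] at e3
    obtain ⟨R, r', a1, a2, a3⟩ := ih _ _ C h1 (by omega) fun v hv e => by
      have := hc (R1 v) (U.sub_mem (c1 hv) (U.smul_mem _ hu)) e
      rw [e1, sub_eq_zero] at this
      exact c2 v (Submodule.mem_span_singleton.2 ⟨_, this.symm⟩) hv
    refine ⟨R1 ∘ₗ R, r', by omega, fun v => ?_, a3⟩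
    rw [LinearMap.comp_apply, e1, sub_right_comm]
    exact U.sub_mem (c1 (a2 v)) (U.smul_mem _ hu)

variable {ι ι' m n κ : Type} [Fintype ι] [DecidableEq ι] [Fintype ι'] [DecidableEq ι'] [Fintype m]
  [DecidableEq m] [Fintype n] [DecidableEq n]

theorem tr_left (e : ι → m) (v : ι → ℂ) (j : m) :
    tr (LinearMap.funLeft ℂ ℂ e) v j = ∑ i, if e i = j then v i else 0 := by
  have := tr_dot (LinearMap.funLeft ℂ ℂ e) v (Pi.single j 1)
  rw [dotProduct_single_one] at this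
  rw [this]
  simp [dotProduct, LinearMap.funLeft_apply, Pi.single_apply]

theorem split (h : Fintype.card ι + Fintype.card ι' ≤ Fintype.card m) :
    ∃ (p : (m → ℂ) →ₗ[ℂ] (ι → ℂ)) (q : (m → ℂ) →ₗ[ℂ] (ι' → ℂ)), (∀ v, p (tr p v) = v) ∧
      (∀ v, p (tr q v) = 0) ∧ (∀ v, q (tr p v) = 0) ∧ ∀ v, q (tr q v) = v := by
  obtain ⟨e⟩ := Function.Embedding.nonempty_of_card_le (α := ι ⊕ ι') (β := m) (by simpa using h)
  exact ⟨LinearMap.funLeft ℂ ℂ (e ∘ Sum.inl), LinearMap.funLeft ℂ ℂ (e ∘ Sum.inr),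
    fun v => funext fun j => by simp [LinearMap.funLeft_apply, tr_left],
    fun v => funext fun j => by simp [LinearMap.funLeft_apply, tr_left],
    fun v => funext fun j => by simp [LinearMap.funLeft_apply, tr_left],
    fun v => funext fun j => by simp [LinearMap.funLeft_apply, tr_left]⟩

/-- Bordering with one new slice. -/
theorem dbl (f : κ → (ι' → ℂ) →ₗ[ℂ] (ι → ℂ)) {α β : ℕ} (h1 : α ≤ Fintype.card ι')
    (h2 : β ≤ Fintype.card ι) (h3 : Fintype.card ι + α ≤ Fintype.card m)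
    (h4 : Fintype.card ι' + β ≤ Fintype.card n) :
    ∃ g : Option κ → (n → ℂ) →ₗ[ℂ] (m → ℂ), ∀ r, RK g r → ∃ r', r' + α + β ≤ r ∧ RK f r' := by
  obtain ⟨P, Q, H11, H12, H21, H22⟩ := split (ι := ι) (ι' := Fin α) (m := m) (by simpa using h3)
  obtain ⟨p, q, h11, h12, h21, h22⟩ := split (ι := ι') (ι' := Fin β) (m := n) (by simpa using h4)
  obtain ⟨s, -, hs, -⟩ := split (ι := Fin β) (ι' := Fin 0) (m := ι) (by simpa using h2)
  obtain ⟨s', -, hs', -⟩ := split (ι := Fin α) (ι' := Fin 0) (m := ι') (by simpa using h1)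
  refine ⟨fun k => k.elim (tr P ∘ₗ tr s ∘ₗ q + tr Q ∘ₗ s' ∘ₗ p) fun k => tr P ∘ₗ f k ∘ₗ p,
    fun r h => ?_⟩
  have dU : dm (range (tr q)) = β := by
    rw [dm_range_eq fun v hv => by rw [← h22 v, hv, map_zero], card_fun, Fintype.card_fin]
  have dU' : dm (range (tr Q)) = α := by
    rw [dm_range_eq fun v hv => by rw [← H22 v, hv, map_zero], card_fun, Fintype.card_fin]
  have hp : ∀ {a b : n → ℂ}, a - b ∈ range (tr q) → p a = p b := by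
    rintro a b ⟨v, hv⟩
    rw [← sub_eq_zero, ← map_sub, ← hv, h12]
  have hP : ∀ {a b : m → ℂ}, a - b ∈ range (tr Q) → P a = P b := by
    rintro a b ⟨v, hv⟩
    rw [← sub_eq_zero, ← map_sub, ← hv, H12]
  obtain ⟨R, r1, a1, a2, a3⟩ := subst_in _ _ _ _ h dU (by
    rintro _ ⟨v, rfl⟩ hv
    have := congrArg (fun w => s (P w)) (hv none)
    simp only [Option.elim, LinearMap.add_apply, LinearMap.comp_apply, h12, h22, map_add, H11,
      map_zero, add_zero, hs] at this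
    rw [this, map_zero])
  have a4 := (a3.of (g := fun k => ((k.elim (tr P ∘ₗ tr s ∘ₗ q + tr Q ∘ₗ s' ∘ₗ p)
    fun k => tr P ∘ₗ f k ∘ₗ p) ∘ₗ R) ∘ₗ tr p) id LinearMap.id (tr p) fun _ _ => rfl).tr
  obtain ⟨R', r2, b1, b2, b3⟩ := subst_in _ _ _ _ a4 dU' (by
    rintro _ ⟨v, rfl⟩ hv
    have : v = 0 := eq_of_dot fun w => by
      have := congrArg (fun η => η ⬝ᵥ tr s' w) (hv none)
      simp only [tr_dot, zero_dotProduct, Option.elim, LinearMap.add_apply, LinearMap.comp_apply,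
        map_add, H21, H22, hp (a2 _), h11, hs', zero_add] at this
      rw [this, zero_dotProduct]
    rw [this, map_zero])
  refine ⟨r2, by omega, RK.of_tr (b3.of some LinearMap.id (tr P) fun k η => eq_of_dot fun w => ?_)⟩
  simp only [LinearMap.id_apply, LinearMap.comp_apply, tr_dot, Option.elim, hp (a2 _), h11]
  rw [dotProduct_comm (R' _), tr_dot, hP (b2 _), H11, dotProduct_comm]

theorem lower0 {a b : ℕ} (a' b' j α β : ℕ) (h1 : j ≤ a') (h2 : j ≤ b') (h3 : a' ≤ 2 * j)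
    (h4 : b' ≤ 2 * j) (h5 : α ≤ b') (h6 : β ≤ a') (h7 : a' + α ≤ a) (h8 : b' + β ≤ b) :
    ∃ g : Option (Option Unit) → (Fin b → ℂ) →ₗ[ℂ] (Fin a → ℂ), ∀ r, RK g r →
      a' + b' + α + β ≤ r + j := by
  obtain ⟨g1, k1⟩ := dbl (m := Fin a') (n := Fin b') (α := a' - j) (β := b' - j)
    (fun _ : Unit => (LinearMap.id : (Fin j → ℂ) →ₗ[ℂ] (Fin j → ℂ))) (by simp; omega)
    (by simp; omega) (by simp; omega) (by simp; omega)
  obtain ⟨g, k2⟩ := dbl (m := Fin a) (n := Fin b) (α := α) (β := β) g1 (by simpa) (by simpa)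
    (by simpa) (by simpa)
  refine ⟨g, fun r hr => ?_⟩
  obtain ⟨r1, a1, a2⟩ := k2 r hr
  obtain ⟨r2, b1, b2⟩ := k1 r1 a2
  obtain ⟨_, r3, c1, -⟩ := subst_in _ _ _ ⊤ b2 rfl fun u _ hu => hu ()
  rw [dm_top, card_fun, Fintype.card_fin] at c1
  omega

end Lower

theorem lower {a b : ℕ} (hab : a ≤ b) (h2 : b ≤ 3 * a)
    (h1 : 2 * a ≤ b ∨ (b + 1 = 2 * a ∧ Even a) ∨ (b + 2 = 2 * a ∧ Odd a)) :
    ∃ g : Option (Option Unit) → (Fin b → ℂ) →ₗ[ℂ] (Fin a → ℂ), ∀ r, RK g r →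
      (3 * a + b) / 2 ≤ r := by
  rw [Nat.even_iff, Nat.odd_iff] at h1
  by_cases h : 2 * a ≤ b
  · obtain ⟨g, h⟩ := lower0 (a := a) (b := b) a (b - a) ((b - a + 1) / 2) 0 a (by omega) (by omega)
      (by omega) (by omega) (by omega) (by omega) (by omega) (by omega)
    exact ⟨g, fun r hr => by have := h r hr; omega⟩
  · obtain ⟨g, h⟩ := lower0 (a := a) (b := b) ((b + 1) / 2) ((b + 1) / 2) ((b + 3) / 4)
      (a - (b + 1) / 2) (b - (b + 1) / 2) (by omega) (by omega) (by omega) (by omega) (by omega)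
      (by omega) (by omega) (by omega)
    exact ⟨g, fun r hr => by have := h r hr; omega⟩

theorem wide (a b : ℕ) :
    ∃ m : ℕ, IsLeast {r : ℕ | ∀ X : Fin a → Fin b → Fin 3 → ℂ, ∃ (u : Fin r → Fin a → ℂ)
        (v : Fin r → Fin b → ℂ) (w : Fin r → Fin 3 → ℂ),
        ∀ i j k, X i j k = ∑ l, u l i * v l j * w l k} m ∧ m ≤ (3 * a + b) / 2 ∧
      (a ≤ b → b ≤ 3 * a → 2 * a ≤ b ∨ (b + 1 = 2 * a ∧ Even a) ∨ (b + 2 = 2 * a ∧ Odd a) →
        m = (3 * a + b) / 2) := by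
  classical
  have ex : ∃ r : ℕ, ∀ X : Fin a → Fin b → Fin 3 → ℂ, ∃ (u : Fin r → Fin a → ℂ)
      (v : Fin r → Fin b → ℂ) (w : Fin r → Fin 3 → ℂ),
      ∀ i j k, X i j k = ∑ l, u l i * v l j * w l k := ⟨_, upper a b _ le_rfl⟩
  have up := Nat.find_min' ex (upper a b _ le_rfl)
  refine ⟨Nat.find ex, ⟨Nat.find_spec ex, fun r hr => Nat.find_min' ex hr⟩, up,
    fun h0 h2 h1 => le_antisymm up ?_⟩
  obtain ⟨g, hg⟩ := lower h0 h2 h1
  obtain ⟨u, v, c, h⟩ := Nat.find_spec ex fun i j k =>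
    g (![none, some none, some (some ())] k) (Pi.single j 1) i
  have h1 : RK (fun k : Fin 3 => g (![none, some none, some (some ())] k)) (Nat.find ex) := by
    refine ⟨Fin _, inferInstance, (Fintype.card_fin _).le,
      fun l => Fintype.linearCombination ℂ (v l), u, c, fun k y => funext fun i => ?_⟩
    conv_lhs => rw [← Finset.univ_sum_single y]
    have : ∀ j, (Pi.single j (y j) : Fin b → ℂ) = y j • Pi.single j 1 := fun j => by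
      rw [← Pi.single_smul, smul_eq_mul, mul_one]
    simp only [this, map_sum, map_smul, Finset.sum_apply, Pi.smul_apply, smul_eq_mul, h,
      Fintype.linearCombination_apply, Finset.mul_sum, Finset.sum_mul]
    rw [Finset.sum_comm]
    exact Finset.sum_congr rfl fun _ _ => Finset.sum_congr rfl fun _ _ => by ring
  exact hg _ (h1.re (fun k => k.elim 0 fun k => k.elim 1 fun _ => 2) fun k v => by
    rcases k with _ | _ | _ <;> rfl)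

end Pool.Agent.P.MP_098a67_ag.E3
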